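import Pool.Agent.L0h11.MX.Pw

/-!
# MP_9177b7_ag: almost all special points of products of modular curves and Shimura curves

`T` consists of Shimura varieties over the totally real field `F`, of their points with complex
multiplication by orders of quadratic CM extensions of `F`, and of the reciprocity law
(`Pool.Agent.L0h15.PM.CMTheory`, the structure of the theorem `DifferentFields`). `D` is the known theorem
of Duke with class group characters and a power of the discriminant as error term for the curves in `T`
(`Pool.Agent.L0h11.MX.DukePower`), and `D.size o` is the sum of the `disc (o i) ^ (- η / 2)`.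

`Pts T c o` is the set of the special points `x` of the product of the curves `c i` such that the `i`-th
coordinate has complex multiplication by the order `o i`, and `tr T o a x` is the translate of `x` by the
element `a` of the product of the class groups of the `o i`. The CM fields of the orders `o i` are
arbitrary; in particular they may all be equal, which is the case of the mixing conjecture of Michel and
Venkatesh. We prove that the Galois orbits of almost all points of `Pts T c o` are equidistributed in the
product of the curves; the proportion of the exceptional points is a power of the discriminants.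
-/

set_option autoImplicit false

namespace Pool.Agent.Results.MP_9177b7_ag.AlmostAllPoints

open Pool.Agent.L0h15.PM Pool.Agent.L0h11.MX Filter MeasureTheory

theorem result (F : Type) [Field F] (T : CMTheory F) (D : DukePower T) (r : ℕ) (hr : 0 < r)
    (c : Fin r → T.Variety) (hc : ∀ i, D.IsCurve (c i)) :
    -- for every test function the averages over the Galois orbits of all but a small proportion of the
    -- translates of every point are at distance less than `ε` from the integral
    (∀ (f : C(∀ i, T.X (c i), ℝ)) (ε : ℝ), 0 < ε → ∃ A : ℝ, 0 ≤ A ∧ ∀ o : Fin r → T.Order,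
      ∀ x ∈ Pts T c o,
        ((Set.ncard {a : ∀ i, T.Pic (o i) | ε ≤ |T.orbitAverage c f (tr T o a x) -
          ∫ z, f z ∂(Measure.pi fun i => T.μ (c i))|} : ℕ) : ℝ) ≤
          A * D.size o * Fintype.card (∀ i, T.Pic (o i))) ∧
    -- there are exceptional sets of points, whose proportion is at most the square root of `D.size o`,
    -- such that the Galois orbits are equidistributed for all sequences of points outside of these sets
    -- for which no coordinate is equal to a fixed CM point infinitely often
    (∃ E : (Fin r → T.Order) → Set (∀ i, T.P (c i)), (∀ o, E o ⊆ Pts T c o) ∧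
      (∀ o, ((Set.ncard (E o) : ℕ) : ℝ) ≤ Real.sqrt (D.size o) * (Set.ncard (Pts T c o) : ℕ)) ∧
      ∀ (o : ℕ → Fin r → T.Order) (x : ℕ → ∀ i, T.P (c i)), (∀ n, x n ∈ Pts T c (o n)) →
        (∀ n, x n ∉ E (o n)) → (∀ i p, ∀ᶠ n in atTop, x n i ≠ p) → T.Equidistributed c x) ∧
    -- the mixing conjecture for almost all twists: equal orders, one fixed coordinate `x i₀`, almost all
    -- translates of the other coordinates by the class group
    (∀ (f : C(∀ i, T.X (c i), ℝ)) (ε : ℝ), 0 < ε → ∃ A : ℝ, 0 ≤ A ∧ ∀ o : T.Order,
      ∀ x ∈ Pts T c (fun _ => o), ∀ i₀ : Fin r,
        (Fintype.card (T.Pic o) : ℝ) * ((Set.ncard {a : Fin r → T.Pic o | a i₀ = 0 ∧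
          ε ≤ |T.orbitAverage c f (tr T (fun _ => o) a x) -
            ∫ z, f z ∂(Measure.pi fun i => T.μ (c i))|} : ℕ) : ℝ) ≤
          A * (D.disc o : ℝ) ^ (-(D.η / 2)) * Fintype.card (Fin r → T.Pic o)) :=
  ⟨fun f _ hε => pmain1 hc f hε, pmain2 hr hc, fun f _ hε => pmain3 hc f hε⟩

end Pool.Agent.Results.MP_9177b7_ag.AlmostAllPoints
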