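import Pool.Agent.L0h15.PM.Main

/-!
# MP_9177b7_ag: special points of products with different CM fields

`T` consists of Shimura varieties over the totally real field `F`, of their points with complex
multiplication by orders of quadratic CM extensions of `F`, and of the reciprocity law. `T.Strong C o x`
says that the orbits of the groups `2^s Pic (o n)` on the Galois conjugates of `x n` are equidistributed
in `C`, for every `s`. `T.Duke` is the known theorem that this holds for curves, when the discriminants
tend to infinity. `T.Equidistributed c x` says that the Galois orbits of the points `x n` of the product
of the varieties `c i` are equidistributed.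
-/

set_option autoImplicit false

namespace Pool.Agent.Results.MP_9177b7_ag.DifferentFields

open Pool.Agent.L0h15.PM Filter

theorem result (F : Type) [Field F] (T : CMTheory F) (r : ℕ) (c : Fin r → T.Variety)
    (x : ℕ → ∀ i, T.P (c i)) (o : ℕ → Fin r → T.Order)
    -- `x n i` has complex multiplication by the order `o n i`
    (hx : ∀ n i, x n i ∈ T.pts (c i) (o n i))
    -- for every `n` the CM fields of the factors are pairwise different
    (hK : ∀ n i j, i ≠ j → T.K (o n i) ≠ T.K (o n j)) :
    -- the factors are asymptotically independent
    ((∀ i, T.Strong (c i) (fun n => o n i) (fun n => x n i)) → T.Equidistributed c x) ∧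
    -- products of curves: every sequence such that no coordinate is equal to a fixed CM point
    -- infinitely often
    (∀ D : T.Duke, (∀ i, D.IsCurve (c i)) → (∀ i p, ∀ᶠ n in atTop, x n i ≠ p) →
      T.Equidistributed c x) :=
  ⟨T.equidistributed hx hK, fun D hc hs => T.equidistributed hx hK (T.strong_of_duke D hx hc hs)⟩

end Pool.Agent.Results.MP_9177b7_ag.DifferentFields
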