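import Pool.Agent.L0h11.MX.Cd

/-!
# MP_9177b7_ag: products of curves, equal CM fields with small intersections of ring class fields

`T` consists of Shimura varieties over the totally real field `F`, of their points with complex
multiplication by orders of quadratic CM extensions of `F`, and of the reciprocity law
(`Pool.Agent.L0h15.PM.CMTheory`, the structure of the theorem `DifferentFields`). `D` is the known theorem
of Duke for the orbits of the subgroups of index at most `disc ^ η` of the class groups
(`Pool.Agent.L0h11.MX.DukeSubgroups`, Harcos-Michel: `η = 1 / 2827`).

The condition `SmallIntersection o i κ` on the orders `o 1, .., o r` holds if the intersection of the ring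
class field of `o i` and of the compositum of the ring class fields of the other orders `o j` of the same
CM field has degree at most `κ` over the CM field.

`R` consists of facts of class field theory on orders of the same CM field and their ring class fields
(`Pool.Agent.L0h11.MX.RingClass`). The condition `SmallCommonPart R o i κ` holds if the CM field of `o i` is
different from the CM fields of all other orders, or if the class number of the order `o i + q` is at
most `κ`, where `q` is contained in all the other orders of the same CM field, for example if `q` is the
intersection of these orders; then the conductor of `o i + q` is the greatest common divisor of the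
conductor of `o i` and the least common multiple of the conductors of these orders.
-/

set_option autoImplicit false

namespace Pool.Agent.Results.MP_9177b7_ag.SmallCommonParts

open Pool.Agent.L0h15.PM Pool.Agent.L0h11.MX Filter

theorem result (F : Type) [Field F] (T : CMTheory F) (D : DukeSubgroups T) (r : ℕ)
    (c : Fin r → T.Variety) (hc : ∀ i, D.IsCurve (c i)) (x : ℕ → ∀ i, T.P (c i))
    (o : ℕ → Fin r → T.Order) (hx : ∀ n i, x n i ∈ T.pts (c i) (o n i))
    -- no coordinate is equal to a fixed CM point infinitely often
    (hs : ∀ i p, ∀ᶠ n in atTop, x n i ≠ p) :
    -- the degrees of the intersections of the ring class fields are bounded by a power of the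
    -- discriminant, for example they are bounded
    (∀ θ : ℝ, θ < D.η →
      (∀ᶠ n in atTop, ∀ i, SmallIntersection (o n) i ((D.disc (o n i) : ℝ) ^ θ)) →
        T.Equidistributed c x) ∧
    (∀ κ : ℝ, (∀ᶠ n in atTop, ∀ i, SmallIntersection (o n) i κ) → T.Equidistributed c x) ∧
    -- the class numbers of the orders `o i + q` are bounded by a power of the discriminant, for
    -- example they are bounded
    (∀ R : RingClass T,
      (∀ θ : ℝ, θ < D.η →
        (∀ᶠ n in atTop, ∀ i, SmallCommonPart R (o n) i ((D.disc (o n i) : ℝ) ^ θ)) →
          T.Equidistributed c x) ∧
      (∀ κ : ℝ, (∀ᶠ n in atTop, ∀ i, SmallCommonPart R (o n) i κ) → T.Equidistributed c x) ∧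
      -- two curves
      (∀ i j : Fin r, i ≠ j → (∀ k, k = i ∨ k = j) → ∀ θ : ℝ, θ < D.η →
        (∀ᶠ n in atTop, T.K (o n i) ≠ T.K (o n j) ∨
          ((Fintype.card (T.Pic (R.sum (o n i) (o n j))) : ℝ) ≤ (D.disc (o n i) : ℝ) ^ θ ∧
            (Fintype.card (T.Pic (R.sum (o n j) (o n i))) : ℝ) ≤ (D.disc (o n j) : ℝ) ^ θ)) →
        T.Equidistributed c x)) := by
  refine ⟨fun θ hθ h => small_parts D hc hx hs hθ h, fun κ h => bounded_parts D hc hx hs h,
    fun R => ⟨fun θ hθ h => small_orders R D hc hx hs hθ h,
      fun κ h => bounded_orders R D hc hx hs h, fun i j hij hall θ hθ h => ?_⟩⟩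
  refine small_orders R D hc hx hs hθ ?_
  filter_upwards [h] with n hn k
  by_cases hK : T.K (o n i) = T.K (o n j)
  · obtain ⟨h1, h2⟩ := hn.resolve_left fun h => h hK
    rcases hall k with rfl | rfl
    · refine Or.inr ⟨o n j, hK.symm, fun l hl _ => ?_, h1⟩
      rcases hall l with rfl | rfl
      · exact absurd rfl hl
      · exact R.le_refl _
    · refine Or.inr ⟨o n i, hK, fun l hl _ => ?_, h2⟩
      rcases hall l with rfl | rfl
      · exact R.le_refl _
      · exact absurd rfl hl
  · refine Or.inl fun l hl h3 => hK ?_
    rcases hall k with rfl | rfl <;> rcases hall l with rfl | rfl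
    · exact absurd rfl hl
    · exact h3.symm
    · exact h3
    · exact absurd rfl hl

end Pool.Agent.Results.MP_9177b7_ag.SmallCommonParts
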